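import Mathlib

/-!
# Project O3 (literal CW complexes): maps of cubes into wedges of spheres, degrees

All balls and spheres are those of the maximum norm of `Fin n → ℝ`.
-/

set_option autoImplicit false

namespace Pool.Agent.Work.MP_e9e200_al.O3

open Set Metric Topology OnePoint

noncomputable section

/-- the space `ℝ^n` with the maximum norm -/
abbrev E (n : ℕ) : Type := Fin n → ℝ

/-- the wedge of `k` spheres of dimension `n` -/
abbrev W (k n : ℕ) : Type := OnePoint (Fin k × E n)

/-! ### Maps with compact support -/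

/-- `f` is continuous and equal to `z` outside a compact set -/
def CS {n : ℕ} {Z : Type} [TopologicalSpace Z] (z : Z) (f : E n → Z) : Prop :=
  Continuous f ∧ ∃ r : ℝ, ∀ x, r ≤ ‖x‖ → f x = z

/-- `f` is continuous and equal to `z` outside the open unit cube -/
def Lo {n : ℕ} {Z : Type} [TopologicalSpace Z] (z : Z) (f : E n → Z) : Prop :=
  Continuous f ∧ ∀ x, 1 ≤ ‖x‖ → f x = z

/-- homotopy of maps with compact support -/
def Ho {n : ℕ} {Z : Type} [TopologicalSpace Z] (z : Z) (f g : E n → Z) : Prop :=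
  ∃ H : ℝ × E n → Z, Continuous H ∧ (∃ r : ℝ, ∀ t x, r ≤ ‖x‖ → H (t, x) = z) ∧
    (∀ x, H (0, x) = f x) ∧ ∀ x, H (1, x) = g x

/-- the map of the cube `[0,1]^n` given by a map of `[-r,r]^n` -/
def gl {n : ℕ} {Z : Type} [TopologicalSpace Z] (z : Z) (f : E n → Z) (r : ℝ)
    (hf : Continuous f) (h : ∀ x, r ≤ ‖x‖ → f x = z) : GenLoop (Fin n) Z z :=
  ⟨⟨fun y => f (fun i => r * (2 * (y i : ℝ) - 1)), by fun_prop⟩, by
    rintro y ⟨i, hi⟩
    refine h _ (le_trans ?_ (norm_le_pi_norm _ i))
    rcases hi with hi | hi <;> simp only [hi] <;> norm_num <;> exact le_abs_self r⟩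

open scoped Classical in
/-- the class of a map with compact support in the homotopy group -/
def cl {n : ℕ} {Z : Type} [TopologicalSpace Z] (z : Z) (f : E n → Z) : HomotopyGroup (Fin n) Z z :=
  if h : ∃ r : ℝ, 0 < r ∧ Continuous f ∧ ∀ x, r ≤ ‖x‖ → f x = z then
    (Quotient.mk (GenLoop.Homotopic.setoid (Fin n) z)
      (gl z f h.choose h.choose_spec.2.1 h.choose_spec.2.2) :
        Quotient (GenLoop.Homotopic.setoid (Fin n) z))
  else (default : HomotopyGroup (Fin n) Z z)

/-- reflection in the coordinate `i` -/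
def mir {n : ℕ} (i : Fin n) (x : E n) : E n := Function.update x i (-x i)

/-! ### Standard maps -/

/-- the homeomorphism of the open unit cube with `ℝ^n` -/
def psi {n : ℕ} (x : E n) : E n := (1 - ‖x‖)⁻¹ • x

/-- the inverse of `psi` -/
def phi {n : ℕ} (y : E n) : E n := (1 + ‖y‖)⁻¹ • y

open scoped Classical in
/-- a linear piece: the cell `a`, the centre `c`, the linear map `L` -/
def pc {k n : ℕ} (a : Fin k) (c : E n) (L : E n →L[ℝ] E n) (x : E n) : W k n :=
  if ‖L (x - c)‖ < 1 then ((a, psi (L (x - c))) : Fin k × E n) else ∞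

open scoped Classical in
/-- the inclusion of the sphere with number `a` -/
def io {k n : ℕ} (a : Fin k) (x : E n) : W k n :=
  if ‖x‖ < 1 then ((a, psi x) : Fin k × E n) else ∞

open scoped Classical in
/-- the projection of the wedge to the sphere with number `a` -/
def pr {k n : ℕ} (a : Fin k) (w : W k n) : W 1 n :=
  w.elim ∞ (fun p => if p.1 = a then (((0, p.2) : Fin 1 × E n) : W 1 n) else ∞)

open scoped Classical in
/-- replace the values outside the open unit cube by the base point -/
def cut {k n : ℕ} (F : E n → W k n) (x : E n) : W k n := if ‖x‖ < 1 then F x else ∞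

open scoped Classical in
/-- the map `S^n × [-1,1] → S^(n+1)` -/
def comb {k n : ℕ} (w : W k n) (τ : ℝ) : W k (n + 1) :=
  w.elim ∞ (fun p => if |τ| < 1 then
    (((p.1, Fin.cons (τ / (1 - |τ|)) p.2) : Fin k × E (n + 1)) : W k (n + 1)) else ∞)

/-- the suspension of a map defined on the unit sphere of `ℝ^(n+1)` -/
def Sus {k n : ℕ} (g : E (n + 1) → W k n) (x : E (n + 1)) : W k (n + 1) :=
  comb (g (‖x‖⁻¹ • x)) (2 * ‖x‖ - 1)

open scoped Classical in
/-- the map of the unit sphere of `ℝ^(n+1)` which is `F` on the face `x 0 = 1` and constant on the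
other faces -/
def fac {n : ℕ} {Z : Type} (z : Z) (F : E n → Z) (x : E (n + 1)) : Z :=
  if x 0 = 1 then F (fun i => x i.succ) else z

/-! ### The degree -/

open scoped Classical in
/-- the label of a vector -/
def ell {n : ℕ} (y : E n) : Fin (n + 1) :=
  (Finset.univ.filter (fun i : Fin n => 0 ≤ y i)).sup Fin.succ

open scoped Classical in
/-- the label vector of a point of the wedge, with respect to the sphere `a` -/
def lv {k n : ℕ} (a : Fin k) (w : W k n) : Fin (n + 1) → ℤ :=
  w.elim 0 (fun p => if p.1 = a ∧ ‖p.2‖ < 1 then Pi.single (ell p.2) 1 else 0)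

/-- the orientation of a simplex -/
def kap {k n : ℕ} (a : Fin k) (v : Fin (n + 1) → W k n) : ℤ :=
  Matrix.det (Matrix.of fun i => lv a (v i))

/-- the vertices of the simplex given by `p` and `σ` -/
def vx {n : ℕ} (p : Fin n → ℤ) (σ : Equiv.Perm (Fin n)) (i : Fin (n + 1)) (j : Fin n) : ℤ :=
  p j + if (σ.symm j).castSucc < i then 1 else 0

/-- the sum over all simplices of the mesh `1 / N` -/
def SN {k n : ℕ} (a : Fin k) (f : E n → W k n) (N : ℕ) : ℤ :=
  ∑ᶠ p : Fin n → ℤ, ∑ σ : Equiv.Perm (Fin n),
    (Equiv.Perm.sign σ : ℤ) * kap a (fun i => f (fun j => (vx p σ i j : ℝ) / N))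

open scoped Classical in
/-- the degree over the sphere `a` of a map with compact support -/
def deg {k n : ℕ} (a : Fin k) (f : E n → W k n) : ℤ :=
  if h : ∃ d : ℤ, ∀ᶠ N : ℕ in Filter.atTop, SN a f N = d then h.choose else 0

end

end Pool.Agent.Work.MP_e9e200_al.O3
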