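import Mathlib

/-!
# The homotopical invariants `Σ^m(G)`: the definition with CW complexes
-/

set_option autoImplicit false

namespace Pool.Agent.Work.MP_e9e200_al.O3

open Set Metric Topology

/-- every continuous map from the boundary of the cube `[-1,1]^(j+1)` (a sphere of dimension `j`)
to `A` extends to a continuous map from the cube to `A` -/
def Ext {X : Type} [TopologicalSpace X] (A : Set X) (j : ℕ) : Prop :=
  ∀ f : (Fin (j + 1) → ℝ) → X, ContinuousOn f (sphere 0 1) → MapsTo f (sphere 0 1) A →
    ∃ F : (Fin (j + 1) → ℝ) → X, ContinuousOn F (closedBall 0 1) ∧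
      MapsTo F (closedBall 0 1) A ∧ EqOn F f (sphere 0 1)

/-- `A` is `(m - 1)`-connected: it is nonempty and every map of a sphere of dimension
`j ≤ m - 1` to `A` extends to the ball of dimension `j + 1` -/
def Conn {X : Type} [TopologicalSpace X] (A : Set X) (m : ℕ) : Prop :=
  A.Nonempty ∧ ∀ j < m, Ext A j

/-- `X` with the given structure of a CW complex is a free `G`-CW-complex: `G` acts freely by
homeomorphisms, and the translates of the characteristic maps are characteristic maps -/
structure IsFreeGCW (G X : Type) [Group G] [TopologicalSpace X] [MulAction G X]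
    [CWComplex (univ : Set X)] : Prop where
  cont : ∀ g : G, Continuous (fun x : X => g • x)
  free : ∀ (g : G) (x : X), g • x = x → g = 1
  perm : ∀ (g : G) (n : ℕ) (e : RelCWComplex.cell (univ : Set X) n),
    ∃ e' : RelCWComplex.cell (univ : Set X) n, ∀ x ∈ closedBall (0 : Fin n → ℝ) 1,
      RelCWComplex.map n e' x = g • RelCWComplex.map n e x

/-- there are finitely many `G`-orbits of cells of dimension at most `m` -/
def FinSk (G X : Type) [Group G] [TopologicalSpace X] [MulAction G X]
    [CWComplex (univ : Set X)] (m : ℕ) : Prop :=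
  ∀ n ≤ m, ∃ S : Set (RelCWComplex.cell (univ : Set X) n), S.Finite ∧
    ∀ e : RelCWComplex.cell (univ : Set X) n, ∃ g : G, ∃ e' ∈ S,
      ∀ x ∈ closedBall (0 : Fin n → ℝ) 1, RelCWComplex.map n e x = g • RelCWComplex.map n e' x

/-- the largest subcomplex contained in the set `h ≥ 0` (the union of all of them) -/
def half {X : Type} [TopologicalSpace X] [CWComplex (univ : Set X)] (h : X → ℝ) : Set X :=
  ⋃ (Y : CWComplex.Subcomplex (univ : Set X)) (_ : (Y : Set X) ⊆ {x | 0 ≤ h x}), (Y : Set X)

/-- the homotopical invariant `Σ^m(G)`: the characters `χ ≠ 0` for which there are a free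
`G`-CW-complex `X` all of whose homotopy groups are trivial (the universal cover of an
Eilenberg-MacLane complex for `G`) with finitely many orbits of cells of dimension at most `m`, and
a height function `h` for `χ`, such that the largest subcomplex in `h ≥ 0` is
`(m - 1)`-connected -/
def LSig (G : Type) [Group G] (m : ℕ) : Set (Additive G →+ ℝ) :=
  {χ | χ ≠ 0 ∧ ∃ (X : Type) (_ : TopologicalSpace X) (_ : T2Space X) (_ : MulAction G X)
    (_ : CWComplex (univ : Set X)), IsFreeGCW G X ∧ (∀ k, Conn (univ : Set X) k) ∧
      FinSk G X m ∧ ∃ h : X → ℝ, Continuous h ∧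
        (∀ (g : G) (x : X), h (g • x) = h x + χ (Additive.ofMul g)) ∧ Conn (half h) m}

/-- the complement of `Σ^m(G)` -/
def LSigC (G : Type) [Group G] (m : ℕ) : Set (Additive G →+ ℝ) := {χ | χ ≠ 0 ∧ χ ∉ LSig G m}

end Pool.Agent.Work.MP_e9e200_al.O3
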