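import Pool.Agent.Work.MP_e9e200_al.Bd.B37

/-!
# Project O3: characters outside `conv_{≤m} (Σ^1)^c` are in the homotopical invariant

The realization theorem `A_RZN` of `O3/Asm.lean` and the algebraic complexes of
`HT/Zero.lean`.
-/

set_option autoImplicit false

namespace Pool.Agent.Work.MP_e9e200_al.O3

/-- let `G` be a metabelian group of type `FP_m` and let `v` be a nonzero character which is not in
`conv_{≤m} (Σ^1(G)^c)`; then `v` is in the homotopical invariant `Σ^m(G)` (with CW complexes) -/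
theorem lower (m : ℕ) (hm : 1 ≤ m) (G : Type) [Group G] [Group.FG G]
    (hG : Metab G) (hfp : GroupFP G m) (v : Additive G →+ ℝ) (hv : v ≠ 0)
    (h : v ∉ ConvLE G m (SigC G 1)) : v ∈ LSig G m := by
  obtain ⟨hv0, X, hgood, _, hfin, hhgt, hc⟩ := HT.hsig0 m hm G hG hfp v hv h
  exact A_RZN G X v ⟨hv0, hgood, hhgt, hc⟩ m hfin

end Pool.Agent.Work.MP_e9e200_al.O3
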